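import Pool.Agent.MP_92191b_al.X.Defs

/-! The six exceptional graphs over three letters. -/

set_option linter.unusedSectionVars false

namespace Pool.Agent.MP_92191b_al.X

open Finset Function Equiv K6

variable {ι α : Type} [Fintype ι] [DecidableEq ι] [Fintype α] [DecidableEq α]

namespace E3

def T4 : Finset (Fin 4 → Fin 3) := univ.filter fun x => x 2 = x 0 + x 1 ∧ x 3 = x 0 - x 1

def D4 : Finset (Fin 4 → Fin 3) := univ.filter fun x => x 2 = 0 ∧ x 3 = 0

def L4 : Finset (Fin 4 → Fin 3) := univ.filter fun x => x 0 = x 1 ∧ x 2 = x 3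

def T5 : Finset (Fin 5 → Fin 3) :=
  univ.filter fun x => x 2 = x 0 + x 1 ∧ x 3 = x 0 - x 1 ∧ x 4 = 0

def X5 : Finset (Fin 5 → Fin 3) :=
  univ.filter fun x => (univ.filter fun i => x i ≠ 0).card ≤ 1 ∨
    ((∀ i, x i ≠ 0) ∧ (univ.filter fun i => x i = 2).card % 2 = 0)

theorem card_T4 : T4.card = 9 := by decide +kernel
theorem card_D4 : D4.card = 9 := by decide +kernel
theorem card_L4 : L4.card = 9 := by decide +kernel
theorem card_T5 : T5.card = 9 := by decide +kernel
theorem card_X5 : X5.card = 27 := by decide +kernel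

theorem dist_T4 : ∀ y ∈ T4, ∀ z ∈ T4, y ≠ z → hammingDist y z = 3 := by decide +kernel
theorem dist_D4 : ∀ y ∈ D4, ∀ z ∈ D4, hammingDist y z ≠ 3 := by decide +kernel
theorem dist_L4 : ∀ y ∈ L4, ∀ z ∈ L4, y ≠ z → hammingDist y z = 2 ∨ hammingDist y z = 4 := by
  decide +kernel
theorem dist_T5 : ∀ y ∈ T5, ∀ z ∈ T5, y ≠ z → hammingDist y z = 3 := by decide +kernel
theorem dist_X5 : ∀ y ∈ X5, ∀ z ∈ X5, hammingDist y z ≠ 3 := by decide +kernel

theorem has_D4 : HasD D4 2 := ⟨![0, 0, 0, 0], by decide +kernel, ![1, 1, 0, 0], by decide +kernel,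
  by decide +kernel⟩

theorem has_X5 : HasD X5 2 := ⟨![1, 0, 0, 0, 0], by decide +kernel, ![0, 1, 0, 0, 0],
  by decide +kernel, by decide +kernel⟩

theorem nd_L4 : nd L4 ![1, 0, 0, 0] 0 = 0 ∧ nd L4 ![1, 0, 0, 0] 1 = 2 ∧
    nd L4 ![1, 0, 0, 0] 2 = 1 ∧ nd L4 ![1, 0, 0, 0] 3 = 4 ∧ nd L4 ![1, 0, 0, 0] 4 = 2 := by
  decide +kernel

theorem tp4 : TP {3} T4 D4 where
  zero := by simp
  cl := fun y hy z hz h => dist_T4 y hy z hz h
  co := fun y hy z hz _ => dist_D4 y hy z hz
  big := by rw [card_T4, card_D4]; simp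

theorem tp5 : TP {3} T5 X5 where
  zero := by simp
  cl := fun y hy z hz h => dist_T5 y hy z hz h
  co := fun y hy z hz _ => dist_X5 y hy z hz
  big := by rw [card_T5, card_X5]; simp

theorem tp13 : TP {1, 3} T4 L4 where
  zero := by simp
  cl := fun y hy z hz h => Or.inr (dist_T4 y hy z hz h)
  co := fun y hy z hz h => by
    rcases dist_L4 y hy z hz h with h' | h' <;> simp [h']
  big := by rw [card_T4, card_L4]; simp

theorem tp24 : TP {2, 4} L4 T4 where
  zero := by simp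
  cl := fun y hy z hz h => dist_L4 y hy z hz h
  co := fun y hy z hz h => by simp [dist_T4 y hy z hz h]
  big := by rw [card_T4, card_L4]; simp

theorem nd_zero (F : Finset (Fin 4 → Fin 3)) (hF : Cl {1, 3} F) (u : Fin 4 → Fin 3) (hu : u ∈ F)
    (s : ℕ) (h0 : s ≠ 0) (h1 : s ≠ 1) (h3 : s ≠ 3) : nd F u s = 0 := by
  unfold nd
  rw [card_eq_zero, filter_eq_empty_iff]
  intro c hc h
  have hne : u ≠ c := by
    rintro rfl
    rw [hammingDist_self] at h
    exact h0 h.symm
  have := hF u hu c hc hne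
  rw [h] at this
  simp only [Set.mem_insert_iff, Set.mem_singleton_iff] at this
  omega

theorem nd_sum (F : Finset (Fin 4 → Fin 3)) (hF : Cl {1, 3} F) (u : Fin 4 → Fin 3) (hu : u ∈ F) :
    nd F u 1 + nd F u 3 + 1 = F.card := by
  unfold nd
  rw [← card_union_of_disjoint, ← card_erase_add_one hu]
  · congr 2
    ext c
    simp only [mem_union, mem_filter, mem_erase]
    constructor
    · rintro (⟨hc, h⟩ | ⟨hc, h⟩) <;> refine ⟨?_, hc⟩ <;> rintro rfl <;> simp at h
    · rintro ⟨hne, hc⟩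
      rcases hF u hu c hc hne.symm with h | h
      · exact Or.inl ⟨hc, h⟩
      · exact Or.inr ⟨hc, h⟩
  · rw [disjoint_left]
    intro c h1 h3
    rw [mem_filter] at h1 h3
    omega

/-- A set of nine points with odd distances has all distances equal to three. -/
theorem nine (hO : StmtOut (Fin 4) (Fin 3)) (F : Finset (Fin 4 → Fin 3)) (hc : F.card = 9)
    (hF : Cl {1, 3} F) : Cl {3} F := by
  intro u hu z hz hne
  have hsep : K6.Sep F L4 := by
    intro c hc c' hc' d hd d' hd' h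
    by_contra hcc
    have h1 := hF c hc c' hc' hcc
    simp only [Set.mem_insert_iff, Set.mem_singleton_iff] at h1
    by_cases hdd : d = d'
    · subst hdd
      rw [hammingDist_self] at h
      omega
    · have := dist_L4 d hd d' hd' hdd
      omega
  have key := hO F L4 hsep (by rw [hc, card_L4]; simp) u ![1, 0, 0, 0]
  obtain ⟨e0, e1, e2, e3, e4⟩ := nd_L4
  have n2 := nd_zero F hF u hu 2 (by omega) (by omega) (by omega)
  have n4 := nd_zero F hF u hu 4 (by omega) (by omega) (by omega)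
  have ns := nd_sum F hF u hu
  simp only [Fintype.card_fin, sum_range_succ, range_zero, sum_empty, e0, e1, e2, e3, e4, n2,
    n4] at key
  norm_num [Nat.choose] at key
  have h8 : (nd F u 1 : ℚ) + nd F u 3 = 8 := by
    have : nd F u 1 + nd F u 3 = 8 := by omega
    exact_mod_cast this
  have h1 : (nd F u 1 : ℚ) = 0 := by linarith
  have h1' : nd F u 1 = 0 := by exact_mod_cast h1
  rcases hF u hu z hz hne with h | h
  · exfalso
    unfold nd at h1'
    rw [card_eq_zero, filter_eq_empty_iff] at h1'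
    exact h1' hz h
  · exact h

/-- Two points at distance zero or three lie in a copy of the tetracode. -/
theorem copy (hM : StmtMove (Fin 4) (Fin 3)) (x y : Fin 4 → Fin 3)
    (h : hammingDist x y = 0 ∨ hammingDist x y = 3) :
    ∃ T : Finset (Fin 4 → Fin 3), T.card = 9 ∧ Cl {3} T ∧ x ∈ T ∧ y ∈ T := by
  obtain ⟨u, hu, v, hv, huv⟩ : ∃ u ∈ T4, ∃ v ∈ T4, hammingDist x y = hammingDist u v := by
    rcases h with h | h
    · exact ⟨![0, 0, 0, 0], by decide +kernel, ![0, 0, 0, 0], by decide +kernel,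
        by rw [h, hammingDist_self]⟩
    · exact ⟨![0, 0, 0, 0], by decide +kernel, ![1, 0, 1, 1], by decide +kernel,
        by rw [h]; decide +kernel⟩
  obtain ⟨g, hg, hx, hy⟩ := hM u v x y huv
  refine ⟨T4.image g, ?_, ?_, ?_, ?_⟩
  · rw [card_image_of_injective _ g.injective, card_T4]
  · intro a ha b hb hab
    obtain ⟨a', ha', rfl⟩ := mem_image.1 ha
    obtain ⟨b', hb', rfl⟩ := mem_image.1 hb
    rw [hg]
    exact dist_T4 a' ha' b' hb' fun e => hab (by rw [e])
  · exact mem_image.2 ⟨u, hu, hx⟩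
  · exact mem_image.2 ⟨v, hv, hy⟩

theorem le4 (x y : Fin 4 → Fin 3) : hammingDist x y ≤ 4 := by
  simpa using (hammingDist_le_card_fintype (x := x) (y := y))

theorem le5 (x y : Fin 5 → Fin 3) : hammingDist x y ≤ 5 := by
  simpa using (hammingDist_le_card_fintype (x := x) (y := y))

theorem hom13 (hM : StmtMove (Fin 4) (Fin 3)) (hO : StmtOut (Fin 4) (Fin 3))
    (hR : StmtRob (Fin 4) (Fin 3)) (f : (Fin 4 → Fin 3) → Fin 4 → Fin 3) (hf : Hom {1, 3} f) :
    Hom {3} f := by
  intro x y h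
  have h3 : hammingDist x y = 3 := h
  obtain ⟨T, hc, hT, hx, hy⟩ := copy hM x y (Or.inr h3)
  have hT' : Cl {1, 3} T := fun a ha b hb hab => Or.inr (hT a ha b hb hab)
  obtain ⟨hcl, hcard⟩ := (hR {1, 3} T4 L4 f ⟨0⟩ tp13 hf).2.2.1 T hT'
  have h9 := nine hO _ (hcard.trans hc) hcl
  refine h9 _ (mem_image_of_mem f hx) _ (mem_image_of_mem f hy) fun e => ?_
  have := hf x y (Or.inr h3)
  rw [e, hammingDist_self] at this
  simp at this

theorem hom24 (hM : StmtMove (Fin 4) (Fin 3)) (hO : StmtOut (Fin 4) (Fin 3))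
    (hR : StmtRob (Fin 4) (Fin 3)) (f : (Fin 4 → Fin 3) → Fin 4 → Fin 3) (hf : Hom {2, 4} f) :
    Hom {1, 2, 4} f := by
  intro x y h
  simp only [Set.mem_insert_iff, Set.mem_singleton_iff] at h ⊢
  by_contra hn
  have hle := le4 (f x) (f y)
  obtain ⟨T, hc, hT, hx, hy⟩ := copy hM (f x) (f y) (by omega)
  have hT' : Cl ({2, 4} : Set ℕ)ᶜ T := fun a ha b hb hab => by
    have : hammingDist a b = 3 := hT a ha b hb hab
    simp [this]
  obtain ⟨hcl, hcard⟩ := (hR {2, 4} L4 T4 f ⟨0⟩ tp24 hf).2.2.2.1 T hT' (hc.trans card_T4.symm)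
  have hcl' : Cl {1, 3} (univ.filter fun x => f x ∈ T) := fun a ha b hb hab => by
    have h1 := hcl a ha b hb hab
    have h2 := le4 a b
    have h3 : hammingDist a b ≠ 0 := fun e => hab (hammingDist_eq_zero.1 e)
    simp only [Set.mem_compl_iff, Set.mem_insert_iff, Set.mem_singleton_iff] at h1 ⊢
    omega
  have h9 := nine hO _ (hcard.trans card_T4) hcl'
  have hne : x ≠ y := by
    rintro rfl
    rw [hammingDist_self] at h
    omega
  have : hammingDist x y = 3 :=
    h9 x (mem_filter.2 ⟨mem_univ _, hx⟩) y (mem_filter.2 ⟨mem_univ _, hy⟩) hne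
  omega

theorem hom124 (f : (Fin 4 → Fin 3) → Fin 4 → Fin 3) (hf : Hom {1, 2, 4} f) :
    Hom {s | s ≠ 0 ∧ s ≠ 3} f := by
  intro x y h
  have hle := le4 x y
  simp only [Set.mem_ofPred_eq] at h ⊢
  have := hf x y (by simp only [Set.mem_insert_iff, Set.mem_singleton_iff]; omega)
  simp only [Set.mem_insert_iff, Set.mem_singleton_iff] at this
  omega

theorem hom1245 (f : (Fin 5 → Fin 3) → Fin 5 → Fin 3) (hf : Hom {1, 2, 4, 5} f) :
    Hom {s | s ≠ 0 ∧ s ≠ 3} f := by
  intro x y h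
  have hle := le5 x y
  simp only [Set.mem_ofPred_eq] at h ⊢
  have := hf x y (by simp only [Set.mem_insert_iff, Set.mem_singleton_iff]; omega)
  simp only [Set.mem_insert_iff, Set.mem_singleton_iff] at this
  omega

end E3

theorem e3 (hM : StmtMove (Fin 4) (Fin 3)) (hO : StmtOut (Fin 4) (Fin 3))
    (hR : StmtRob (Fin 4) (Fin 3)) (h4 : StmtThree (Fin 4)) (h5 : StmtThree (Fin 5))
    (h4' : StmtCoThree (Fin 4)) (h5' : StmtCoThree (Fin 5)) : StmtE3 := by
  have a4 : ∀ f : (Fin 4 → Fin 3) → Fin 4 → Fin 3, Hom {3} f → Unif f :=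
    h4 (by simp) (by simp) E3.T4 E3.D4 E3.tp4 E3.card_T4
  have b4 : ∀ f : (Fin 4 → Fin 3) → Fin 4 → Fin 3, Hom {1, 2, 4} f → Unif f := fun f hf =>
    h4' (by simp) (by simp) E3.T4 E3.D4 E3.tp4 E3.card_T4 E3.has_D4 f (E3.hom124 f hf)
  refine ⟨fun f hf => ?_, fun f hf => ?_⟩
  · rcases hf with hf | hf | hf | hf
    · exact a4 f hf
    · exact b4 f hf
    · exact a4 f (E3.hom13 hM hO hR f hf)
    · exact b4 f (E3.hom24 hM hO hR f hf)
  · rcases hf with hf | hf
    · exact h5 (by simp) (by simp) E3.T5 E3.X5 E3.tp5 E3.card_T5 f hf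
    · exact h5' (by simp) (by simp) E3.T5 E3.X5 E3.tp5 E3.card_T5 E3.has_X5 f (E3.hom1245 f hf)

end Pool.Agent.MP_92191b_al.X
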