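import Pool.Agent.MP_92191b_al.X.Defs

/-! The hexacode and the outer distributions of codes with its parameters. -/

set_option linter.unusedSectionVars false

namespace Pool.Agent.MP_92191b_al.X

open Finset Function Equiv K6

variable {ι α : Type} [Fintype ι] [DecidableEq ι] [Fintype α] [DecidableEq α]

namespace Hex

abbrev T3 : Type := Fin 4 × Fin 4 × Fin 4

/-- Addition in the field with four elements. -/
def ad (a b : Fin 4) : Fin 4 := ![![0, 1, 2, 3], ![1, 0, 3, 2], ![2, 3, 0, 1], ![3, 2, 1, 0]] a b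

/-- Multiplication by a primitive element. -/
def mw (a : Fin 4) : Fin 4 := ![0, 2, 3, 1] a

def gH (t : T3) : Fin 6 → Fin 4 :=
  ![t.1, t.2.1, t.2.2, ad (ad t.1 t.2.1) t.2.2, ad (ad (mw (mw t.1)) (mw t.2.1)) t.2.2,
    ad (ad (mw t.1) (mw (mw t.2.1))) t.2.2]

def gC (t : T3) : Fin 6 → Fin 4 := ![t.1, t.2.1, t.2.2, 0, 0, 0]

def cB (b c : Fin 4) (i : ℕ) : Fin 4 :=
  if 4 * b.val + c.val = 3 * i + 1 then 1 else if 4 * b.val + c.val = 3 * i + 2 then 2
  else if 4 * b.val + c.val = 3 * i + 3 then 3 else 0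

def gB (t : T3) : Fin 6 → Fin 4 :=
  ![t.1, cB t.2.1 t.2.2 0, cB t.2.1 t.2.2 1, cB t.2.1 t.2.2 2, cB t.2.1 t.2.2 3, cB t.2.1 t.2.2 4]

def d6 (x y : Fin 6 → Fin 4) : ℕ :=
  nq (x 0) (y 0) + nq (x 1) (y 1) + nq (x 2) (y 2) + nq (x 3) (y 3) + nq (x 4) (y 4) +
    nq (x 5) (y 5)

theorem hd (x y : Fin 6 → Fin 4) : hammingDist x y = d6 x y := by
  unfold hammingDist d6 nq
  rw [card_filter, Fin.sum_univ_six]
  simp only [ne_eq, ite_not]

theorem inj_of (g : T3 → Fin 6 → Fin 4) (h : ∀ s t, d6 (g s) (g t) = 0 → s = t) :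
    Injective g := fun s t e => h s t (by rw [← hd, e, hammingDist_self])

theorem nd_im (g : T3 → Fin 6 → Fin 4) (hg : Injective g) (v : Fin 6 → Fin 4) (s : ℕ) :
    nd (univ.image g) v s = (univ.filter fun t => d6 v (g t) = s).card := by
  unfold nd
  rw [filter_image, card_image_of_injective _ hg]
  simp only [hd]

theorem card_im (g : T3 → Fin 6 → Fin 4) (hg : Injective g) : (univ.image g).card = 64 := by
  rw [card_image_of_injective _ hg]; rfl

theorem hH : ∀ s t, s = t ∨ d6 (gH s) (gH t) = 4 ∨ d6 (gH s) (gH t) = 6 := by decide +kernel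

theorem hC : ∀ s t, (d6 (gC s) (gC t) = 0 → s = t) ∧ d6 (gC s) (gC t) ≤ 3 := by decide +kernel

theorem hB : ∀ s t, (d6 (gB s) (gB t) = 0 → s = t) ∧ d6 (gB s) (gB t) ≤ 3 := by decide +kernel

theorem iH : Injective gH := inj_of _ fun s t h => by
  rcases hH s t with e | e | e
  · exact e
  · omega
  · omega

theorem iC : Injective gC := inj_of _ fun s t => (hC s t).1

theorem iB : Injective gB := inj_of _ fun s t => (hB s t).1

theorem sep {C : Finset (Fin 6 → Fin 4)} (hC : Cl {4, 6} C) (g : T3 → Fin 6 → Fin 4)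
    (h : ∀ s t, d6 (g s) (g t) ≤ 3) : K6.Sep C (univ.image g) := by
  intro c hc c' hc' d hd' d' hd'' e
  by_contra hne
  obtain ⟨s, -, rfl⟩ := mem_image.1 hd'
  obtain ⟨t, -, rfl⟩ := mem_image.1 hd''
  have h1 := hC c hc c' hc' hne
  have h2 := h s t
  rw [e, hd] at h1
  simp only [Set.mem_insert_iff, Set.mem_singleton_iff] at h1
  omega

theorem out (hO : StmtOut (Fin 6) (Fin 4)) {C : Finset (Fin 6 → Fin 4)} (h64 : C.card = 64)
    (hC : Cl {4, 6} C) (g : T3 → Fin 6 → Fin 4) (hg : Injective g)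
    (h : ∀ s t, d6 (g s) (g t) ≤ 3) (u v : Fin 6 → Fin 4) (a : ℕ → ℕ)
    (ha : ∀ s, s < 7 → (univ.filter fun t => d6 v (g t) = s).card = a s) :
    (nd C u 0 : ℚ) * a 0 + (nd C u 1 : ℚ) * a 1 / 18 + (nd C u 2 : ℚ) * a 2 / 135 +
      (nd C u 3 : ℚ) * a 3 / 540 + (nd C u 4 : ℚ) * a 4 / 1215 + (nd C u 5 : ℚ) * a 5 / 1458 +
      (nd C u 6 : ℚ) * a 6 / 729 = 1 := by
  have h1 := hO C _ (sep hC g h) (by rw [h64, card_im g hg]; simp) u v
  simp only [Fintype.card_fin, sum_range_succ, sum_range_zero, nd_im g hg] at h1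
  rw [ha 0 (by omega), ha 1 (by omega), ha 2 (by omega), ha 3 (by omega), ha 4 (by omega),
    ha 5 (by omega), ha 6 (by omega)] at h1
  norm_num [Nat.choose] at h1
  linarith

theorem tot (C : Finset (Fin 6 → Fin 4)) (u : Fin 6 → Fin 4) :
    C.card = nd C u 0 + nd C u 1 + nd C u 2 + nd C u 3 + nd C u 4 + nd C u 5 + nd C u 6 := by
  have h := card_eq_sum_card_fiberwise (s := C) (t := range 7) (f := fun c => hammingDist u c)
    (fun c _ => by
      have := hammingDist_le_card_fintype (x := u) (y := c)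
      simp only [Fintype.card_fin] at this
      simp only [coe_range, Set.mem_Iio]
      omega)
  simpa only [sum_range_succ, sum_range_zero, zero_add, nd] using h

theorem a0 : ∀ s, s < 7 → (univ.filter fun t => d6 ![0, 0, 0, 0, 0, 0] (gC t) = s).card =
    [1, 9, 27, 27, 0, 0, 0].getD s 0 := by decide +kernel

theorem a1 : ∀ s, s < 7 → (univ.filter fun t => d6 ![0, 0, 0, 1, 0, 0] (gC t) = s).card =
    [0, 1, 9, 27, 27, 0, 0].getD s 0 := by decide +kernel

theorem a2 : ∀ s, s < 7 → (univ.filter fun t => d6 ![0, 0, 0, 1, 1, 0] (gC t) = s).card =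
    [0, 0, 1, 9, 27, 27, 0].getD s 0 := by decide +kernel

theorem a3 : ∀ s, s < 7 → (univ.filter fun t => d6 ![0, 0, 0, 0, 0, 0] (gB t) = s).card =
    [1, 18, 45, 0, 0, 0, 0].getD s 0 := by decide +kernel

theorem a4 : ∀ s, s < 7 → (univ.filter fun t => d6 (gH (0, 0, 0)) (gH t) = s).card =
    [1, 0, 0, 0, 45, 0, 18].getD s 0 := by decide +kernel

end Hex

open Hex in
theorem hex : StmtHex := by
  have hm : ∀ t, gH t ∈ univ.image gH := fun t => mem_image_of_mem _ (mem_univ t)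
  refine ⟨univ.image gH, card_im _ iH, ?_, ⟨_, hm (0, 0, 0), _, hm (0, 0, 1), ?_⟩,
    ⟨_, hm (0, 0, 0), _, hm (1, 1, 2), ?_⟩, _, hm (0, 0, 0), ?_⟩
  · intro y hy z hz hne
    obtain ⟨s, -, rfl⟩ := mem_image.1 hy
    obtain ⟨t, -, rfl⟩ := mem_image.1 hz
    rw [hd]
    rcases hH s t with e | e | e
    · exact absurd (congrArg gH e) hne
    · exact Or.inl e
    · exact Or.inr e
  · rw [hd]; decide +kernel
  · rw [hd]; decide +kernel
  · simp only [nd_im _ iH]
    exact ⟨a4 0 (by omega), a4 1 (by omega), a4 2 (by omega), a4 3 (by omega), a4 4 (by omega),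
      a4 5 (by omega), a4 6 (by omega)⟩

open Hex in
theorem hexOut (hO : StmtOut (Fin 6) (Fin 4)) : StmtHexOut := by
  intro C h64 hC u hu
  have e0 := out hO h64 hC gC iC (fun s t => (Hex.hC s t).2) u _ _ a0
  have e1 := out hO h64 hC gC iC (fun s t => (Hex.hC s t).2) u _ _ a1
  have e2 := out hO h64 hC gC iC (fun s t => (Hex.hC s t).2) u _ _ a2
  have e3 := out hO h64 hC gB iB (fun s t => (hB s t).2) u _ _ a3
  have e4 := tot C u
  have n0 : nd C u 0 = 0 := by
    unfold nd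
    rw [card_eq_zero, filter_eq_empty_iff]
    intro c hc h
    exact hu (hammingDist_eq_zero.1 h ▸ hc)
  rw [h64] at e4
  rw [n0] at e0 e1 e2 e3 e4
  generalize nd C u 1 = n1 at *
  generalize nd C u 2 = n2 at *
  generalize nd C u 3 = n3 at *
  generalize nd C u 4 = n4 at *
  generalize nd C u 5 = n5 at *
  generalize nd C u 6 = n6 at *
  norm_num [List.getD] at e0 e1 e2 e3
  have f0 : 10 * n1 + 4 * n2 + n3 = 20 := by
    have : (10 * n1 + 4 * n2 + n3 : ℚ) = 20 := by linarith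
    exact_mod_cast this
  have f1 : 10 * n1 + 12 * n2 + 9 * n3 + 4 * n4 = 180 := by
    have : (10 * n1 + 12 * n2 + 9 * n3 + 4 * n4 : ℚ) = 180 := by linarith
    exact_mod_cast this
  have f2 : 4 * n2 + 9 * n3 + 12 * n4 + 10 * n5 = 540 := by
    have : (4 * n2 + 9 * n3 + 12 * n4 + 10 * n5 : ℚ) = 540 := by linarith
    exact_mod_cast this
  have f3 : 3 * n1 + n2 = 3 := by
    have : (3 * n1 + n2 : ℚ) = 3 := by linarith
    exact_mod_cast this
  omega

end Pool.Agent.MP_92191b_al.X
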