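import Pool.Agent.MP_92191b_al.K6.Glue

/-! Definitions and statements for the exceptional graphs over three and four letters. -/

set_option linter.unusedSectionVars false

namespace Pool.Agent.MP_92191b_al.X

open Finset Function Equiv K6

variable {ι α : Type} [Fintype ι] [DecidableEq ι] [Fintype α] [DecidableEq α]

/-- All distances between different points of `C` lie in `S`. -/
def Cl (S : Set ℕ) (C : Finset (ι → α)) : Prop :=
  ∀ y ∈ C, ∀ z ∈ C, y ≠ z → hammingDist y z ∈ S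

/-- The distance `s` occurs in `C`. -/
def HasD (C : Finset (ι → α)) (s : ℕ) : Prop := ∃ x ∈ C, ∃ y ∈ C, hammingDist x y = s

/-- An endomorphism of the graph with distance set `S`. -/
def Hom (S : Set ℕ) (f : (ι → α) → ι → α) : Prop :=
  ∀ x y, hammingDist x y ∈ S → hammingDist (f x) (f y) ∈ S

/-- The number of points of `C` at distance `s` from `u`. -/
def nd (C : Finset (ι → α)) (u : ι → α) (s : ℕ) : ℕ :=
  (C.filter fun c => hammingDist u c = s).card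

/-- The images of `x` and `y` are different and not adjacent. -/
def Kept (S : Set ℕ) (f : (ι → α) → ι → α) (x y : ι → α) : Prop :=
  f x ≠ f y ∧ hammingDist (f x) (f y) ∉ S

/-- A clique and a coclique whose sizes multiply to the number of vertices. -/
structure TP (S : Set ℕ) (K D : Finset (ι → α)) : Prop where
  zero : 0 ∉ S
  cl : Cl S K
  co : Cl Sᶜ D
  big : Fintype.card α ^ Fintype.card ι ≤ K.card * D.card

/-- A point outside a clique of size `r` has at most `a` neighbours in it. -/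
def Bound (ι α : Type) [Fintype ι] [DecidableEq ι] [Fintype α] [DecidableEq α] (S : Set ℕ)
    (r a : ℕ) : Prop :=
  ∀ C : Finset (ι → α), Cl S C → C.card = r → ∀ u, u ∉ C → ∀ T, T ⊆ C →
    (∀ c ∈ T, hammingDist u c ∈ S) → T.card ≤ a

variable (ι α) in
/-- Outer distance distributions of a tight pair. -/
def StmtOut : Prop :=
  ∀ C D : Finset (ι → α), K6.Sep C D → Fintype.card α ^ Fintype.card ι ≤ C.card * D.card →
    ∀ u v : ι → α, ∑ s ∈ range (Fintype.card ι + 1), ((nd C u s : ℚ) * (nd D v s : ℚ)) /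
      (((Fintype.card ι).choose s : ℚ) * ((Fintype.card α - 1 : ℕ) : ℚ) ^ s) = 1

variable (ι α) in
/-- Isometries are transitive on pairs at a given distance. -/
def StmtMove : Prop :=
  ∀ u v x y : ι → α, hammingDist x y = hammingDist u v →
    ∃ g : (ι → α) ≃ (ι → α), (∀ a b, hammingDist (g a) (g b) = hammingDist a b) ∧
      g u = x ∧ g v = y

variable (ι α) in
/-- General facts on endomorphisms of a graph with a tight pair. -/
def StmtRob : Prop :=
  ∀ (S : Set ℕ) (K D : Finset (ι → α)) (f : (ι → α) → ι → α), Nonempty α → TP S K D → Hom S f →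
    (∀ C : Finset (ι → α), Cl S C → C.card ≤ K.card) ∧
    (∀ D' : Finset (ι → α), Cl Sᶜ D' → D'.card ≤ D.card) ∧
    (∀ C : Finset (ι → α), Cl S C → Cl S (C.image f) ∧ (C.image f).card = C.card) ∧
    (∀ D' : Finset (ι → α), Cl Sᶜ D' → D'.card = D.card →
      Cl Sᶜ (univ.filter fun x => f x ∈ D') ∧ (univ.filter fun x => f x ∈ D').card = D.card) ∧
    (∀ a, Bound ι α S K.card a → ∀ C : Finset (ι → α), Cl S C → C.card = K.card →
      ∀ u T, T ⊆ C → a < T.card → (∀ c ∈ T, ¬Kept S f u c) → ∀ c ∈ C, ¬Kept S f u c) ∧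
    ((∀ x y, ¬Kept S f x y) → Unif f) ∧
    ((∀ x y, x ≠ y → hammingDist x y ∉ S → f x ≠ f y) → Unif f)

variable (ι) in
/-- The graph of distance three over three letters, and its complement. -/
def StmtThree : Prop :=
  4 ≤ Fintype.card ι → Fintype.card ι ≤ 5 → ∀ K D : Finset (ι → Fin 3), TP {3} K D →
    K.card = 9 → ∀ f : (ι → Fin 3) → ι → Fin 3, Hom {3} f → Unif f

variable (ι) in
def StmtCoThree : Prop :=
  4 ≤ Fintype.card ι → Fintype.card ι ≤ 5 → ∀ K D : Finset (ι → Fin 3), TP {3} K D →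
    K.card = 9 → HasD D 2 →
    ∀ f : (ι → Fin 3) → ι → Fin 3, Hom {s | s ≠ 0 ∧ s ≠ 3} f → Unif f

/-- The six exceptional graphs over three letters. -/
def StmtE3 : Prop :=
  (∀ f : (Fin 4 → Fin 3) → Fin 4 → Fin 3,
    Hom {3} f ∨ Hom {1, 2, 4} f ∨ Hom {1, 3} f ∨ Hom {2, 4} f → Unif f) ∧
  ∀ f : (Fin 5 → Fin 3) → Fin 5 → Fin 3, Hom {3} f ∨ Hom {1, 2, 4, 5} f → Unif f

/-- A code with 64 words and distances four and six. -/
def StmtHex : Prop :=
  ∃ H : Finset (Fin 6 → Fin 4), H.card = 64 ∧ Cl {4, 6} H ∧ HasD H 4 ∧ HasD H 6 ∧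
    ∃ v ∈ H, nd H v 0 = 1 ∧ nd H v 1 = 0 ∧ nd H v 2 = 0 ∧ nd H v 3 = 0 ∧ nd H v 4 = 45 ∧
      nd H v 5 = 0 ∧ nd H v 6 = 18

/-- Outer distributions of such a code. -/
def StmtHexOut : Prop :=
  ∀ C : Finset (Fin 6 → Fin 4), C.card = 64 → Cl {4, 6} C → ∀ u, u ∉ C →
    (nd C u 1 = 1 ∧ nd C u 2 = 0 ∧ nd C u 3 = 10 ∧ nd C u 4 = 20 ∧ nd C u 5 = 21 ∧
      nd C u 6 = 12) ∨
    (nd C u 1 = 0 ∧ nd C u 2 = 3 ∧ nd C u 3 = 8 ∧ nd C u 4 = 18 ∧ nd C u 5 = 24 ∧
      nd C u 6 = 11)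

def StmtE7 : Prop := ∀ f : (Fin 6 → Fin 4) → Fin 6 → Fin 4, Hom {4, 6} f → Unif f

def StmtE8 : Prop := ∀ f : (Fin 6 → Fin 4) → Fin 6 → Fin 4, Hom {1, 2, 3, 5} f → Unif f

/-- Exceptional pairs. -/
def Exo (C D : Finset (ι → α)) : Prop :=
  (Fintype.card α = 3 ∧ Fintype.card ι = 4 ∧ HasD C 3 ∧ HasD D 2 ∧ HasD D 4) ∨
  (Fintype.card α = 3 ∧ Fintype.card ι = 4 ∧ HasD C 2 ∧ HasD C 4 ∧ HasD D 3) ∨
  (Fintype.card α = 3 ∧ Fintype.card ι = 5 ∧ HasD C 3 ∧ HasD D 2 ∧ HasD D 4 ∧ HasD D 5) ∨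
  (Fintype.card α = 4 ∧ Fintype.card ι = 6 ∧ HasD C 4 ∧ HasD C 6 ∧ HasD D 2 ∧ HasD D 3 ∧
    HasD D 5)

variable (ι α) in
/-- The structure theorem with an arbitrary family of exceptions. -/
def StmtAX (Ex : Finset (ι → α) → Finset (ι → α) → Prop) : Prop :=
  ∀ C D : Finset (ι → α), GP C D → 2 ≤ C.card → Concl C D ∨ Ex C D

/-- The exceptions are harmless for the map `f`. -/
structure Harmless (Ex : Finset (ι → α) → Finset (ι → α) → Prop) (f : (ι → α) → ι → α) :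
    Prop where
  gap : ∀ C D, Ex C D → ∃ c ∈ C, ∃ c' ∈ C, ∃ d ∈ D, ∃ d' ∈ D, c ≠ c' ∧
    hammingDist c c' ≤ hammingDist d d'
  unif : ∀ C D, GP C D → Ex C D → ∀ S : Set ℕ, 0 ∉ S → Hom S f →
    (1 ∉ S ∧ Cl S C ∧ Cl Sᶜ D) ∨ (1 ∈ S ∧ Cl Sᶜ C ∧ Cl S D) → Unif f

variable (ι α) in
def StmtGlueX : Prop :=
  3 ≤ Fintype.card α → ∀ Ex : Finset (ι → α) → Finset (ι → α) → Prop, StmtAX ι α Ex →
    ∀ f : Function.End (ι → α), Harmless Ex f →
    (∀ c ∈ Submonoid.closure ({g : Function.End (ι → α) |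
      ∃ (σ : ι → Perm α) (π : Perm ι), g = fun x i => σ i (x (π i))} ∪ {f}),
      ¬∃ y, ∀ x, c x = y) → Unif f

/-- The listed exceptional pairs are harmless. -/
def StmtHarm : Prop :=
  ∀ (k m : ℕ) (f : (Fin m → Fin k) → Fin m → Fin k), Harmless Exo f

end Pool.Agent.MP_92191b_al.X
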